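import Mathlib
import Pool.Agent.R205.TwoFlows

/-!
# MP_0a3467_an, Q2: positivity fails for non-commuting multiplicative actions

For every `ℓ ≥ 2` there are `ℓ + 1` multiplicative actions on one non-atomic standard Borel probability space and
a measurable set `A` of positive measure such that the intersection of the sets `T_{j, m + j n}⁻¹ A` is null for all
`m, n ≥ 1` with `m + n ≥ 8`; in particular the averages of Q2 tend to `0`.
-/

set_option autoImplicit false

open MeasureTheory Filter Topology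
open scoped ENNReal

namespace Pool.Agent.Results.MP_0a3467_an.NonCommutingFlows

/-- `T` is a multiplicative action on `(Ω, μ)`: for `n ≥ 1` (the value at `0` plays no role) the map `T n` is
invertible, bimeasurable and preserves `μ`, `T 1` is the identity, and `T (m n) = T m ∘ T n` for `m, n ≥ 1`. -/
structure IsMultAction {Ω : Type*} [MeasurableSpace Ω] (μ : Measure Ω) (T : ℕ → Ω ≃ᵐ Ω) : Prop where
  measurePreserving : ∀ n, 1 ≤ n → MeasurePreserving (T n) μ μ
  one_apply : ∀ x, T 1 x = x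
  mul_apply : ∀ m n, 1 ≤ m → 1 ≤ n → ∀ x, T (m * n) x = T m (T n x)

/-- The average over `(m, n) ∈ [N]²` of the measures of the intersections `⋂_{j ≤ ℓ} T_{j, m + j n}⁻¹ A`. -/
noncomputable def avg {Ω : Type*} [MeasurableSpace Ω] (μ : Measure Ω) (ℓ : ℕ)
    (T : Fin (ℓ + 1) → ℕ → Ω ≃ᵐ Ω) (A : Set Ω) (N : ℕ) : ℝ :=
  (∑ m ∈ Finset.Icc 1 N, ∑ n ∈ Finset.Icc 1 N,
    μ.real (⋂ j : Fin (ℓ + 1), (T j (m + (j : ℕ) * n)) ⁻¹' A)) / (N : ℝ) ^ 2

/-- The assertion of Q2: for all `ℓ`, all `ℓ + 1` multiplicative actions on one Lebesgue probability space and all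
sets of positive measure the lower limit of the averages is positive. -/
def Question2 : Prop :=
  ∀ (Ω : Type) [MeasurableSpace Ω] [StandardBorelSpace Ω] (μ : Measure Ω) [IsProbabilityMeasure μ] [NullSingletonClass μ]
    (ℓ : ℕ) (T : Fin (ℓ + 1) → ℕ → Ω ≃ᵐ Ω) (A : Set Ω),
    (∀ j, IsMultAction μ (T j)) → MeasurableSet A → 0 < μ A →
      0 < liminf (avg μ ℓ T A) atTop

open Pool.Agent.R205.TwoFlows in
/-- the multiplicative actions: `φ` and `ψ` at time `log n / 2`, and the identity -/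
noncomputable def act (j n : ℕ) : Pool.Agent.R205.TwoFlows.X ≃ᵐ Pool.Agent.R205.TwoFlows.X :=
  if j = 1 then φ (Real.log n / 2) else if j = 2 then ψ (Real.log n / 2) else MeasurableEquiv.refl _

open Pool.Agent.R205.TwoFlows in
lemma isMultAction_act (j : ℕ) : IsMultAction Pool.Agent.R205.TwoFlows.μ (act j) := by
  have hlog : ∀ m n : ℕ, 1 ≤ m → 1 ≤ n →
      Real.log ((m * n : ℕ) : ℝ) / 2 = Real.log m / 2 + Real.log n / 2 := by
    intro m n hm hn
    have hm' : (m : ℝ) ≠ 0 := by positivity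
    have hn' : (n : ℝ) ≠ 0 := by positivity
    rw [Nat.cast_mul, Real.log_mul hm' hn']
    ring
  by_cases h1 : j = 1
  · subst h1
    refine ⟨fun n _ => ?_, fun x => ?_, fun m n hm hn x => ?_⟩
    · simpa [act] using mp_φ (Real.log n / 2)
    · simp [act, φ_zero]
    · simp only [act, if_true]
      rw [hlog m n hm hn, φ_add]
  · by_cases h2 : j = 2
    · subst h2
      refine ⟨fun n _ => ?_, fun x => ?_, fun m n hm hn x => ?_⟩
      · simpa [act] using mp_ψ (Real.log n / 2)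
      · simp [act, ψ_zero]
      · simp only [act]
        norm_num
        rw [← Nat.cast_mul, hlog m n hm hn, ψ_add]
    · refine ⟨fun n _ => ?_, fun x => ?_, fun m n hm hn x => ?_⟩
      · have h : act j n = MeasurableEquiv.refl _ := by simp [act, h1, h2]
        rw [h]
        exact MeasurePreserving.id _
      · simp [act, h1, h2]
      · simp [act, h1, h2]

/-- the relevant times are at least `1` and less than `1/2` apart -/
lemma times {m n : ℕ} (hn : 1 ≤ n) (h8 : 8 ≤ m + n) :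
    1 ≤ Real.log ((m + n : ℕ) : ℝ) / 2 ∧
      |Real.log ((m + n : ℕ) : ℝ) / 2 - Real.log ((m + 2 * n : ℕ) : ℝ) / 2| < 1 / 2 := by
  have h8' : (8 : ℝ) ≤ ((m + n : ℕ) : ℝ) := by exact_mod_cast h8
  have hpos : (0 : ℝ) < ((m + n : ℕ) : ℝ) := by linarith
  have hn' : (1 : ℝ) ≤ n := by exact_mod_cast hn
  have hlog2 : Real.log 2 < 1 := by have := Real.log_two_lt_d9; linarith
  constructor
  · have h1 : Real.log 8 ≤ Real.log ((m + n : ℕ) : ℝ) := Real.log_le_log (by norm_num) h8'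
    have h2 : Real.log 8 = 3 * Real.log 2 := by
      rw [show (8 : ℝ) = 2 ^ 3 by norm_num, Real.log_pow]
      norm_num
    have h3 := Real.log_two_gt_d9
    linarith
  · have hle : Real.log ((m + n : ℕ) : ℝ) ≤ Real.log ((m + 2 * n : ℕ) : ℝ) := by
      apply Real.log_le_log hpos
      push_cast
      linarith
    have hlt : Real.log ((m + 2 * n : ℕ) : ℝ) ≤ Real.log (2 * ((m + n : ℕ) : ℝ)) := by
      have h0 : (0 : ℝ) ≤ m := Nat.cast_nonneg m
      apply Real.log_le_log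
      · push_cast
        linarith
      · push_cast
        linarith
    rw [Real.log_mul (by norm_num) hpos.ne'] at hlt
    rw [abs_lt]
    constructor <;> linarith

open Pool.Agent.R205.TwoFlows in
lemma inter_empty {ℓ : ℕ} (hℓ : 2 ≤ ℓ) {m n : ℕ} (hn : 1 ≤ n) (h8 : 8 ≤ m + n) :
    (⋂ j : Fin (ℓ + 1), (act j (m + (j : ℕ) * n)) ⁻¹' A) = ∅ := by
  refine Set.eq_empty_iff_forall_notMem.2 fun p hp => ?_
  rw [Set.mem_iInter] at hp
  have h1 : act 1 (m + 1 * n) p ∈ A := hp ⟨1, by omega⟩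
  have h2 : act 2 (m + 2 * n) p ∈ A := hp ⟨2, by omega⟩
  obtain ⟨ht1, ht2⟩ := times (m := m) hn h8
  refine disjoint_visits ht1 ht2 p ?_ ?_
  · simpa [act] using h1
  · simpa [act] using h2

lemma sum_le {f : ℕ → ℕ → ℝ} (h1 : ∀ m n, f m n ≤ 1) (h0 : ∀ m n, 1 ≤ n → 8 ≤ m + n → f m n = 0) (N : ℕ) :
    ∑ m ∈ Finset.Icc 1 N, ∑ n ∈ Finset.Icc 1 N, f m n ≤ 64 := by
  have hf : ∀ m ∈ Finset.Icc 1 N, ∀ n ∈ Finset.Icc 1 N, f m n ≤
      (if m < 9 then (1 : ℝ) else 0) * (if n < 9 then (1 : ℝ) else 0) := by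
    intro m _ n hn
    rw [Finset.mem_Icc] at hn
    by_cases h8 : 8 ≤ m + n
    · rw [h0 m n hn.1 h8]
      split_ifs <;> norm_num
    · rw [if_pos (by omega), if_pos (by omega)]
      simpa using h1 m n
  have hs : ∑ n ∈ Finset.Icc 1 N, (if n < 9 then (1 : ℝ) else 0) ≤ 8 := by
    rw [← Finset.sum_filter, Finset.sum_const, nsmul_eq_mul, mul_one]
    have : (Finset.Icc 1 N).filter (fun n => n < 9) ⊆ Finset.Icc 1 8 := by
      intro n hn
      rw [Finset.mem_filter, Finset.mem_Icc] at hn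
      rw [Finset.mem_Icc]
      omega
    have h := Finset.card_le_card this
    rw [Nat.card_Icc] at h
    exact_mod_cast h
  have hs0 : 0 ≤ ∑ n ∈ Finset.Icc 1 N, (if n < 9 then (1 : ℝ) else 0) :=
    Finset.sum_nonneg fun n _ => by split_ifs <;> norm_num
  calc ∑ m ∈ Finset.Icc 1 N, ∑ n ∈ Finset.Icc 1 N, f m n
      ≤ ∑ m ∈ Finset.Icc 1 N, ∑ n ∈ Finset.Icc 1 N,
        (if m < 9 then (1 : ℝ) else 0) * (if n < 9 then (1 : ℝ) else 0) :=
        Finset.sum_le_sum fun m hm => Finset.sum_le_sum fun n hn => hf m hm n hn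
    _ = (∑ m ∈ Finset.Icc 1 N, (if m < 9 then (1 : ℝ) else 0)) *
        (∑ n ∈ Finset.Icc 1 N, (if n < 9 then (1 : ℝ) else 0)) := by
        rw [Finset.sum_mul_sum]
    _ ≤ 8 * 8 := mul_le_mul hs hs hs0 (by norm_num)
    _ = 64 := by norm_num

lemma tendsto_avg {Ω : Type*} [MeasurableSpace Ω] (μ : Measure Ω) [IsProbabilityMeasure μ] (ℓ : ℕ)
    (T : Fin (ℓ + 1) → ℕ → Ω ≃ᵐ Ω) (A : Set Ω)
    (h : ∀ m n : ℕ, 1 ≤ n → 8 ≤ m + n → μ (⋂ j : Fin (ℓ + 1), (T j (m + (j : ℕ) * n)) ⁻¹' A) = 0) :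
    Tendsto (avg μ ℓ T A) atTop (𝓝 0) := by
  have hle : ∀ N, avg μ ℓ T A N ≤ 64 / (N : ℝ) ^ 2 := by
    intro N
    unfold avg
    refine div_le_div_of_nonneg_right ?_ (by positivity)
    refine sum_le (f := fun m n => μ.real (⋂ j : Fin (ℓ + 1), (T j (m + (j : ℕ) * n)) ⁻¹' A))
      (fun m n => measureReal_le_one) (fun m n hn h8 => ?_) N
    simp [Measure.real, h m n hn h8]
  have hge : ∀ N, 0 ≤ avg μ ℓ T A N := by
    intro N
    unfold avg
    exact div_nonneg (Finset.sum_nonneg fun m _ => Finset.sum_nonneg fun n _ => measureReal_nonneg)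
      (by positivity)
  have hlim : Tendsto (fun N : ℕ => 64 / (N : ℝ) ^ 2) atTop (𝓝 0) := by
    refine Tendsto.const_div_atTop ?_ 64
    exact (tendsto_pow_atTop (by norm_num)).comp tendsto_natCast_atTop_atTop
  exact tendsto_of_tendsto_of_tendsto_of_le_of_le tendsto_const_nhds hlim hge hle

instance : NullSingletonClass (volume : Measure UnitAddCircle) := by
  refine ⟨fun x => ?_⟩
  have h := AddCircle.volume_closedBall (T := (1 : ℝ)) (x := x) 0
  rw [Metric.closedBall_zero] at h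
  rw [h]
  simp

open Pool.Agent.R205.TwoFlows in
instance : NullSingletonClass Pool.Agent.R205.TwoFlows.μ := by
  unfold Pool.Agent.R205.TwoFlows.μ
  infer_instance

/-- **Main theorem.** For every `ℓ ≥ 2` there are `ℓ + 1` multiplicative actions on a non-atomic standard Borel
probability space and a set `A` of positive measure whose intersections `⋂_j T_{j, m + j n}⁻¹ A` are null as soon as
`m + n ≥ 8`, so the averages of Q2 converge to `0`.  Hence the assertion of Q2 is false. -/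
theorem result :
    (∀ ℓ : ℕ, 2 ≤ ℓ → ∃ (Ω : Type) (_ : MeasurableSpace Ω) (_ : StandardBorelSpace Ω) (μ : Measure Ω)
      (_ : IsProbabilityMeasure μ) (_ : NullSingletonClass μ) (T : Fin (ℓ + 1) → ℕ → Ω ≃ᵐ Ω) (A : Set Ω),
      (∀ j, IsMultAction μ (T j)) ∧ MeasurableSet A ∧ 0 < μ A ∧
      (∀ m n : ℕ, 1 ≤ m → 1 ≤ n → 8 ≤ m + n →
        μ (⋂ j : Fin (ℓ + 1), (T j (m + (j : ℕ) * n)) ⁻¹' A) = 0) ∧
      Tendsto (avg μ ℓ T A) atTop (𝓝 0) ∧ liminf (avg μ ℓ T A) atTop = 0) ∧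
    ¬ Question2 := by
  have key : ∀ ℓ : ℕ, 2 ≤ ℓ → ∀ m n : ℕ, 1 ≤ n → 8 ≤ m + n →
      Pool.Agent.R205.TwoFlows.μ
        (⋂ j : Fin (ℓ + 1), (act j (m + (j : ℕ) * n)) ⁻¹' Pool.Agent.R205.TwoFlows.A) = 0 := by
    intro ℓ hℓ m n hn h8
    rw [inter_empty hℓ hn h8]
    exact measure_empty
  have htend : ∀ ℓ : ℕ, 2 ≤ ℓ → Tendsto (avg Pool.Agent.R205.TwoFlows.μ ℓ
      (fun j : Fin (ℓ + 1) => act j) Pool.Agent.R205.TwoFlows.A) atTop (𝓝 0) :=
    fun ℓ hℓ => tendsto_avg _ ℓ _ _ (key ℓ hℓ)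
  refine ⟨fun ℓ hℓ => ⟨Pool.Agent.R205.TwoFlows.X, inferInstance, inferInstance,
    Pool.Agent.R205.TwoFlows.μ, inferInstance, inferInstance, fun j => act j,
    Pool.Agent.R205.TwoFlows.A, fun j => isMultAction_act j,
    Pool.Agent.R205.TwoFlows.measurableSet_A, Pool.Agent.R205.TwoFlows.A_pos,
    fun m n _ hn h8 => key ℓ hℓ m n hn h8, htend ℓ hℓ, (htend ℓ hℓ).liminf_eq⟩, ?_⟩
  intro hQ
  have h := hQ Pool.Agent.R205.TwoFlows.X Pool.Agent.R205.TwoFlows.μ 2 (fun j => act j)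
    Pool.Agent.R205.TwoFlows.A (fun j => isMultAction_act j)
    Pool.Agent.R205.TwoFlows.measurableSet_A Pool.Agent.R205.TwoFlows.A_pos
  rw [(htend 2 le_rfl).liminf_eq] at h
  exact lt_irrefl _ h

end Pool.Agent.Results.MP_0a3467_an.NonCommutingFlows
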